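import Pool.Agent.T2H76.PR.Hol

/-!
MP_dd9b03_an, Q1 (affirmative): the closure of a relatively compact domain with `C¹` boundary in a
generic `C²` submanifold of complex `n`-space is pluriregular; its extremal function is even
Hölder continuous of order `1/8` on the whole space.
-/

open T2H76.PR

namespace Pool.Agent.Results.MP_dd9b03_an.Pluriregular

theorem result (n m : ℕ) (M D : Set (Cn n)) (hM : IsGeneric m M) (hD : IsC1Domain m M D) :
    Continuous (Vstar (closure D)) ∧
      ∃ (C : NNReal) (v : Cn n → ℝ), HolderWith C (1 / 8) v ∧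
        ∀ z : Cn n, V (closure D) z = ((v z : ℝ) : EReal) ∧
          Vstar (closure D) z = ((v z : ℝ) : EReal) := by
  obtain ⟨C, v, hv, h⟩ := holder n m M D hM hD
  refine ⟨?_, C, v, hv, h⟩
  rw [show Vstar (closure D) = fun z => ((v z : ℝ) : EReal) from funext fun z => (h z).2]
  exact continuous_coe_real_ereal.comp (hv.continuous (by norm_num))

end Pool.Agent.Results.MP_dd9b03_an.Pluriregular
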